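import Pool.Agent.Helper35.OG.Parity

/-!
# The orientable genus of a graph embedded in a non-orientable surface, up to a linear error

`S` is an arbitrary map (cellular embedding) of the connected simple graph `G`, `S.eg` the Euler genus of its surface,
and `S.defect` the smallest number of corners of `S` at which the orientations of the edge bands disagree (the length of
a shortest closed curve system, crossing `G` at vertices only and passing from vertex to face through corners, which
blocks the non-orientability of the surface).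
-/

set_option autoImplicit false

namespace Pool.Agent.Results.MP_6d4ab8_lc.LinearError

open Pool.Agent.Helper35.OG

/-- `defect - 24 eg ≤ 4 * genus ≤ defect + 2 eg`. -/
theorem result {V : Type} [Finite V] [Nontrivial V] (G : SimpleGraph V) (hG : G.Connected) (S : GMap G) :
    (∃ M : GMap G, M.Orientable ∧ M.eg = 2 * (orientableGenus G : ℤ)) ∧
      (S.defect : ℤ) ≤ 4 * (orientableGenus G : ℤ) + 24 * S.eg ∧
      4 * (orientableGenus G : ℤ) ≤ (S.defect : ℤ) + 2 * S.eg := by
  classical
  have := Fintype.ofFinite V
  -- an orientable map has even nonnegative Euler genus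
  have hnat : ∀ M : GMap G, M.Orientable → ∃ g : ℕ, M.eg = 2 * (g : ℤ) := by
    intro M hM
    obtain ⟨g, hg⟩ := even_eg hG M hM
    have h0 : ((([] : List (M.Face × M.Face)).length : ℕ) : ℤ) ≤ M.eg :=
      tri_bound M M hG [] (by intro p hp; simp at hp) List.Pairwise.nil
    have h1 : (0 : ℤ) ≤ M.eg := h0
    refine ⟨g.toNat, ?_⟩
    omega
  obtain ⟨T, hT, hTeg⟩ := upper S
  obtain ⟨g, hg⟩ := hnat T hT
  have hmem : orientableGenus G ∈ {g : ℕ | ∃ M : GMap G, M.Orientable ∧ M.eg = 2 * (g : ℤ)} :=
    Nat.sInf_mem ⟨g, T, hT, hg⟩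
  have hle : orientableGenus G ≤ g := Nat.sInf_le ⟨T, hT, hg⟩
  obtain ⟨M, hM, hMeg⟩ := hmem
  have hdef := defect_le hG S M hM
  refine ⟨⟨M, hM, hMeg⟩, ?_, ?_⟩
  · omega
  · omega

end Pool.Agent.Results.MP_6d4ab8_lc.LinearError
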